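import Pool.Agent.Y811.PC.Stm2
import Pool.Agent.Y736.ML10

set_option autoImplicit false

/-! # The modulus of continuity of the exterior map on the circle (job PC-CIRC) -/

namespace Pool.Agent.Y678.PC

open Complex Metric Set Filter Topology Pool.Agent.H712R2 Pool.Agent.H713R2 N62a1eb23
open Pool.Agent.Y736.HL Pool.Agent.Y811.PC

/-- the function `x (F (1/x) - F ζ)` in the unit disc -/
theorem exists_H {d : ℕ} (hd2 : 2 ≤ d) {ψ F : ℂ → ℂ} (hψ : IsExteriorMap (multibrotSet d) ψ)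
    (hF : ContinuousOn F {z | 1 ≤ ‖z‖}) (hE : ∀ w, 1 < ‖w‖ → F w = ψ w) {ζ : ℂ} (hζ : ‖ζ‖ = 1) :
    ∃ H : ℂ → ℂ, ContinuousOn H (closedBall 0 1) ∧ DifferentiableOn ℂ H (ball 0 1) ∧
      (∀ x, ‖x‖ = 1 → ‖H x‖ = ‖F x⁻¹ - F ζ‖) ∧
      ∀ r : ℝ, 1 < r → ‖ψ (r * ζ) - F ζ‖ = r * ‖H (r * ζ)⁻¹‖ := by
  obtain ⟨β, hβ⟩ := exists_beta hd2
  have hζ0 : ζ ≠ 0 := by
    rintro rfl
    rw [norm_zero] at hζ
    exact one_ne_zero hζ.symm
  obtain ⟨H, hH⟩ : ∃ H : ℂ → ℂ, H = fun x => if x = 0 then 1 else x * (F x⁻¹ - F ζ) := ⟨_, rfl⟩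
  have hHb : ∀ x ∈ ball (0 : ℂ) 1, H x = β x - x * F ζ := by
    intro x hx
    rw [hH]
    simp only
    by_cases hx0 : x = 0
    · rw [if_pos hx0, hx0, hβ.zero, zero_mul, sub_zero]
    · have h1 : 1 < ‖x⁻¹‖ := one_lt_norm_inv hx hx0
      rw [if_neg hx0, hE _ h1, exteriorMap_unique hβ hψ h1, inv_inv]
      field_simp
  have hd : DifferentiableOn ℂ H (ball 0 1) := by
    have h1 : DifferentiableOn ℂ (fun x => β x - x * F ζ) (ball 0 1) :=
      hβ.diff.sub (differentiableOn_id.mul_const _)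
    exact h1.congr hHb
  have hc : ContinuousOn H (closedBall 0 1) := by
    intro x hx
    rw [mem_closedBall_zero_iff] at hx
    rcases lt_or_eq_of_le hx with h | h
    · have h1 : x ∈ ball (0 : ℂ) 1 := by rw [mem_ball_zero_iff]; exact h
      exact (hd.differentiableAt (isOpen_ball.mem_nhds h1)).continuousAt.continuousWithinAt
    · have hx0 : x ≠ 0 := by
        rintro rfl
        rw [norm_zero] at h
        exact zero_ne_one h
      have h1 : ContinuousWithinAt (fun x => x * (F x⁻¹ - F ζ)) (closedBall 0 1) x := by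
        apply continuousWithinAt_id.mul
        apply ContinuousWithinAt.sub _ continuousWithinAt_const
        have h2 : ContinuousWithinAt F {z | 1 ≤ ‖z‖} x⁻¹ := hF x⁻¹ (by
          show 1 ≤ ‖x⁻¹‖
          rw [norm_inv, h, inv_one])
        have h3 : ContinuousWithinAt (fun x : ℂ => x⁻¹) (closedBall 0 1 ∩ {0}ᶜ) x :=
          (continuousAt_inv₀ hx0).continuousWithinAt
        have h4 : ContinuousWithinAt (fun x : ℂ => F x⁻¹) (closedBall 0 1 ∩ {0}ᶜ) x := by
          apply h2.comp h3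
          intro y hy
          obtain ⟨hy1, hy2⟩ := hy
          rw [mem_closedBall_zero_iff] at hy1
          have hy3 : 0 < ‖y‖ := norm_pos_iff.2 hy2
          show 1 ≤ ‖y⁻¹‖
          rw [norm_inv]
          exact (one_le_inv₀ hy3).2 hy1
        have h5 : {0}ᶜ ∈ 𝓝 x := isOpen_compl_singleton.mem_nhds hx0
        exact (continuousWithinAt_inter h5).1 h4
      refine h1.congr_of_eventuallyEq ?_ ?_
      · have h5 : {0}ᶜ ∈ 𝓝 x := isOpen_compl_singleton.mem_nhds hx0
        filter_upwards [mem_nhdsWithin_of_mem_nhds h5] with y hy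
        have hy' : y ≠ 0 := hy
        rw [hH]
        simp only
        rw [if_neg hy']
      · rw [hH]
        simp only
        rw [if_neg hx0]
  refine ⟨H, hc, hd, ?_, ?_⟩
  · intro x hx
    have hx0 : x ≠ 0 := by
      rintro rfl
      rw [norm_zero] at hx
      exact zero_ne_one hx
    rw [hH]
    simp only
    rw [if_neg hx0, norm_mul, hx, one_mul]
  · intro r hr1
    have hr0 : (0 : ℝ) < r := by linarith
    have hrc : (r : ℂ) ≠ 0 := by exact_mod_cast hr0.ne'
    have hx0 : ((r : ℂ) * ζ)⁻¹ ≠ 0 := inv_ne_zero (mul_ne_zero hrc hζ0)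
    have hn : ‖(r : ℂ) * ζ‖ = r := by
      rw [norm_mul, hζ, mul_one, Complex.norm_real, Real.norm_of_nonneg hr0.le]
    rw [hH]
    simp only
    rw [if_neg hx0, inv_inv, norm_mul, norm_inv, hn, ← mul_assoc, mul_inv_cancel₀ hr0.ne',
      one_mul, hE ((r : ℂ) * ζ) (by rw [hn]; exact hr1)]

/-- the principal root in the right half plane -/
theorem re_root {z : ℂ} (hz : 0 ≤ z.re) : √(‖z‖ / 2) ≤ (z ^ (1 / 2 : ℂ)).re := by
  rcases eq_or_ne z 0 with rfl | hz0
  · rw [norm_zero, zero_div, Real.sqrt_zero, Complex.zero_cpow (by norm_num), Complex.zero_re]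
  obtain ⟨v, hv⟩ : ∃ v, v = z ^ (1 / 2 : ℂ) := ⟨_, rfl⟩
  have hv2 : v ^ 2 = z := by
    rw [hv, ← Complex.cpow_nat_mul]
    norm_num
  have hre : 0 ≤ v.re := by
    rw [hv, Complex.cpow_def_of_ne_zero hz0, Complex.exp_re]
    apply mul_nonneg (Real.exp_pos _).le
    have h1 : (Complex.log z * (1 / 2 : ℂ)).im = z.arg / 2 := by
      rw [show (1 / 2 : ℂ) = ((1 / 2 : ℝ) : ℂ) by push_cast; rfl, Complex.im_mul_ofReal,
        Complex.log_im]
      ring
    rw [h1]
    apply Real.cos_nonneg_of_neg_pi_div_two_le_of_le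
    · have := Complex.neg_pi_lt_arg z
      linarith
    · have := Complex.arg_le_pi z
      linarith
  have h1 : z.re = v.re ^ 2 - v.im ^ 2 := by
    rw [← hv2, pow_two, Complex.mul_re]
    ring
  have h2 : ‖z‖ = v.re ^ 2 + v.im ^ 2 := by
    rw [← hv2, norm_pow, ← Complex.normSq_eq_norm_sq, Complex.normSq_apply]
    ring
  rw [← hv]
  apply Real.sqrt_le_iff.2
  refine ⟨hre, ?_⟩
  rw [h2]
  nlinarith

/-- two constants theorem for an arc, with the exponent `1/2` -/
theorem two_const {H : ℂ → ℂ} (hc : ContinuousOn H (closedBall 0 1))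
    (hd : DifferentiableOn ℂ H (ball 0 1)) {ξ : ℂ} (hξ : ‖ξ‖ = 1) {S ω t : ℝ} (hω : 0 < ω)
    (hωS : ω ≤ S) (ht0 : 0 < t) (hS : ∀ x, ‖x‖ = 1 → ‖H x‖ ≤ S)
    (hnear : ∀ x, ‖x‖ = 1 → ‖x - ξ‖ ≤ t → ‖H x‖ ≤ ω) {x₀ : ℂ} (hx₀ : ‖x₀‖ < 1) {s : ℝ}
    (hs : 0 ≤ s) (hx₀s : 1 - x₀ * ξ⁻¹ = (s : ℂ)) :
    ‖H x₀‖ ≤ ω * Real.exp (Real.log (S / ω) * (√(2 / t) * √s)) := by
  have hξ0 : ξ ≠ 0 := by
    rintro rfl
    rw [norm_zero] at hξ
    exact one_ne_zero hξ.symm
  obtain ⟨L, hL⟩ : ∃ L, L = Real.log (S / ω) := ⟨_, rfl⟩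
  have hL0 : 0 ≤ L := by
    rw [hL]
    exact Real.log_nonneg ((one_le_div hω).2 hωS)
  have hLexp : Real.exp (-L) * S = ω := by
    have hS0 : 0 < S := by linarith
    rw [hL, Real.exp_neg, Real.exp_log (by positivity)]
    field_simp
  obtain ⟨E, hE⟩ : ∃ E : ℂ → ℂ, E = fun x =>
      Complex.exp (-((L * √(2 / t) : ℝ) : ℂ) * (1 - x * ξ⁻¹) ^ (1 / 2 : ℂ)) := ⟨_, rfl⟩
  have hEn : ∀ x, ‖E x‖ = Real.exp (-(L * √(2 / t) * ((1 - x * ξ⁻¹) ^ (1 / 2 : ℂ)).re)) := by
    intro x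
    rw [hE]
    simp only
    rw [Complex.norm_exp, ← Complex.ofReal_neg, Complex.re_ofReal_mul]
    congr 1
    ring
  have hny : ∀ x : ℂ, ‖x * ξ⁻¹‖ = ‖x‖ := fun x => by rw [norm_mul, norm_inv, hξ, inv_one, mul_one]
  have hdist : ∀ x : ℂ, ‖1 - x * ξ⁻¹‖ = ‖x - ξ‖ := by
    intro x
    have e : x - ξ = -((1 - x * ξ⁻¹) * ξ) := by
      field_simp
      ring
    rw [e, norm_neg, norm_mul, hξ, mul_one]
  have hre0 : ∀ x : ℂ, ‖x‖ ≤ 1 → 0 ≤ (1 - x * ξ⁻¹).re := by
    intro x hx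
    have h1 := (Complex.re_le_norm (x * ξ⁻¹)).trans ((hny x).le.trans hx)
    rw [Complex.sub_re, Complex.one_re]
    linarith
  have hslit : ∀ x : ℂ, ‖x‖ ≤ 1 → x ≠ ξ → (1 - x * ξ⁻¹) ∈ Complex.slitPlane := by
    intro x hx hxξ
    have h0 := hre0 x hx
    rcases lt_or_eq_of_le h0 with h | h
    · exact Or.inl h
    · exfalso
      obtain ⟨y, hy⟩ : ∃ y, y = x * ξ⁻¹ := ⟨_, rfl⟩
      rw [← hy, Complex.sub_re, Complex.one_re] at h
      have h1 : ‖y‖ ≤ 1 := by rw [hy, hny]; exact hx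
      have h2 : ‖y‖ ^ 2 ≤ 1 := by nlinarith [norm_nonneg y]
      rw [← Complex.normSq_eq_norm_sq, Complex.normSq_apply] at h2
      have h3 : y.re = 1 := by linarith
      have h4 : y.im = 0 := by
        rw [h3] at h2
        nlinarith
      have h5 : y = 1 := by
        apply Complex.ext
        · rw [h3, Complex.one_re]
        · rw [h4, Complex.one_im]
      apply hxξ
      rw [hy] at h5
      field_simp at h5
      exact h5
  have hEd : DifferentiableOn ℂ E (ball 0 1) := by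
    intro x hx
    rw [mem_ball_zero_iff] at hx
    have h1 : x ≠ ξ := by
      rintro rfl
      rw [hξ] at hx
      exact lt_irrefl _ hx
    have h2 := hslit x hx.le h1
    apply DifferentiableAt.differentiableWithinAt
    rw [hE]
    apply DifferentiableAt.cexp
    apply DifferentiableAt.const_mul
    exact DifferentiableAt.cpow (by fun_prop) (by fun_prop) h2
  have hEc : ContinuousOn E (closedBall 0 1) := by
    intro x hx
    rw [mem_closedBall_zero_iff] at hx
    apply ContinuousAt.continuousWithinAt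
    rw [hE]
    apply ContinuousAt.cexp
    apply ContinuousAt.mul continuousAt_const
    by_cases hxξ : x = ξ
    · have h1 : 1 - x * ξ⁻¹ = 0 := by rw [hxξ, mul_inv_cancel₀ hξ0, sub_self]
      have h2 : ContinuousAt (fun p : ℂ × ℂ => p.1 ^ p.2) (1 - x * ξ⁻¹, (1 / 2 : ℂ)) := by
        rw [h1]
        exact Complex.continuousAt_cpow_zero_of_re_pos (by norm_num)
      exact ContinuousAt.comp (f := fun x : ℂ => ((1 - x * ξ⁻¹, (1 / 2 : ℂ)) : ℂ × ℂ))
        (g := fun p : ℂ × ℂ => p.1 ^ p.2) h2 (by fun_prop)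
    · exact ContinuousAt.cpow (by fun_prop) (by fun_prop) (hslit x hx hxξ)
  have hmax := Complex.norm_le_of_forall_mem_frontier_norm_le (f := fun x => H x * E x)
    (U := ball 0 1) (C := ω) isBounded_ball (by
      constructor
      · exact hd.mul hEd
      · rw [closure_ball _ one_ne_zero]
        exact hc.mul hEc) (fun x hx => by
      rw [frontier_ball _ one_ne_zero, mem_sphere_zero_iff_norm] at hx
      have hroot := re_root (hre0 x hx.le)
      have hroot0 : 0 ≤ ((1 - x * ξ⁻¹) ^ (1 / 2 : ℂ)).re := (Real.sqrt_nonneg _).trans hroot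
      rw [norm_mul, hEn]
      rcases le_or_gt ‖x - ξ‖ t with h1 | h1
      · have h2 : Real.exp (-(L * √(2 / t) * ((1 - x * ξ⁻¹) ^ (1 / 2 : ℂ)).re)) ≤ 1 := by
          rw [Real.exp_le_one_iff]
          have : 0 ≤ L * √(2 / t) * ((1 - x * ξ⁻¹) ^ (1 / 2 : ℂ)).re := by positivity
          linarith
        have h3 := hnear x hx h1
        have h4 := mul_le_mul h3 h2 (Real.exp_pos _).le hω.le
        rwa [mul_one] at h4
      · have h2 : Real.exp (-(L * √(2 / t) * ((1 - x * ξ⁻¹) ^ (1 / 2 : ℂ)).re)) ≤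
            Real.exp (-L) := by
          apply Real.exp_le_exp.2
          have h3 : 1 ≤ √(2 / t) * ((1 - x * ξ⁻¹) ^ (1 / 2 : ℂ)).re := by
            have h4 : √(2 / t) * √(t / 2) = 1 := by
              rw [← Real.sqrt_mul (by positivity)]
              rw [show 2 / t * (t / 2) = 1 by field_simp, Real.sqrt_one]
            have h5 : √(t / 2) ≤ ((1 - x * ξ⁻¹) ^ (1 / 2 : ℂ)).re := by
              refine le_trans (Real.sqrt_le_sqrt ?_) hroot
              rw [hdist]
              linarith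
            have h6 := mul_le_mul_of_nonneg_left h5 (Real.sqrt_nonneg (2 / t))
            linarith
          nlinarith
        have h3 := hS x hx
        have h4 := mul_le_mul h3 h2 (Real.exp_pos _).le (by linarith)
        linarith) (subset_closure (by rw [mem_ball_zero_iff]; exact hx₀ : x₀ ∈ ball (0 : ℂ) 1))
  have hrs : ((1 - x₀ * ξ⁻¹) ^ (1 / 2 : ℂ)).re = √s := by
    rw [hx₀s, show (1 / 2 : ℂ) = ((1 / 2 : ℝ) : ℂ) by push_cast; rfl, ← Complex.ofReal_cpow hs,
      Complex.ofReal_re, Real.sqrt_eq_rpow]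
  rw [norm_mul, hEn, hrs, mul_assoc] at hmax
  rw [← hL]
  have h1 : 0 < Real.exp (L * (√(2 / t) * √s)) := Real.exp_pos _
  have h2 := mul_le_mul_of_nonneg_right hmax h1.le
  rw [mul_assoc, ← Real.exp_add, neg_add_cancel, Real.exp_zero, mul_one] at h2
  exact h2

theorem tlog : Tendsto (fun e : ℝ => Real.log (1 / e)) (𝓝[>] 0) atTop := by
  have h1 : (fun e : ℝ => Real.log (1 / e)) = fun e => -Real.log e := by
    funext e
    rw [one_div, Real.log_inv]
  rw [h1]
  exact tendsto_neg_atBot_atTop.comp Real.tendsto_log_nhdsGT_zero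

/-- the small bound near the point -/
noncomputable def om (B ε p e : ℝ) : ℝ := (B / ((1 - ε) * Real.log (1 / e))) ^ (1 / p)

theorem tom {B ε p : ℝ} (hε1 : ε < 1) (hp : 0 < p) : Tendsto (om B ε p) (𝓝[>] 0) (𝓝 0) := by
  have h1 : Tendsto (fun e : ℝ => B / ((1 - ε) * Real.log (1 / e))) (𝓝[>] 0) (𝓝 0) :=
    Tendsto.const_div_atTop (tlog.const_mul_atTop (by linarith)) B
  have h2 := h1.rpow_const (p := 1 / p) (Or.inr (by positivity))
  rw [Real.zero_rpow (by positivity)] at h2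
  exact h2

theorem trpow {r : ℝ} (hr : 0 < r) : Tendsto (fun e : ℝ => e ^ r) (𝓝[>] 0) (𝓝 0) := by
  have h1 := (Real.continuousAt_rpow_const 0 r (Or.inr hr.le)).tendsto
  rw [Real.zero_rpow hr.ne'] at h1
  exact h1.mono_left nhdsWithin_le_nhds

/-- the error -/
noncomputable def er (B ε p S e : ℝ) : ℝ := Real.log (S / om B ε p e) * (√2 * e ^ (ε / 2))

theorem ter {B ε p S : ℝ} (hB : 0 < B) (hε0 : 0 < ε) (hε1 : ε < 1) (hp : 0 < p) (hS : 0 < S) :
    Tendsto (er B ε p S) (𝓝[>] 0) (𝓝 0) := by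
  have h1 : Tendsto (fun e : ℝ => Real.log (Real.log (1 / e)) * e ^ (ε / 2)) (𝓝[>] 0) (𝓝 0) := by
    have h2 : Tendsto (fun e : ℝ => -(Real.log e * e ^ (ε / 2))) (𝓝[>] 0) (𝓝 0) := by
      have h3 := (tendsto_log_mul_rpow_nhdsGT_zero (r := ε / 2) (by positivity)).neg
      rwa [neg_zero] at h3
    refine tendsto_of_tendsto_of_tendsto_of_le_of_le' tendsto_const_nhds h2 ?_ ?_
    · filter_upwards [tlog.eventually_ge_atTop 1, self_mem_nhdsWithin] with e he he0
      have he0' : (0 : ℝ) < e := he0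
      have h4 := Real.log_nonneg he
      positivity
    · filter_upwards [tlog.eventually_ge_atTop 1, self_mem_nhdsWithin] with e he he0
      have he0' : (0 : ℝ) < e := he0
      have h4 : Real.log (Real.log (1 / e)) ≤ -Real.log e := by
        have h5 := Real.log_le_sub_one_of_pos (show 0 < Real.log (1 / e) by linarith)
        have h6 : Real.log (1 / e) = -Real.log e := by rw [one_div, Real.log_inv]
        linarith
      have h5 : 0 < e ^ (ε / 2) := by positivity
      have h6 := mul_le_mul_of_nonneg_right h4 h5.le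
      linarith
  have h2 := (trpow (show 0 < ε / 2 by positivity)).const_mul
    ((Real.log S - 1 / p * Real.log (B / (1 - ε))) * √2)
  have h3 := h1.const_mul (1 / p * √2)
  have h4 := h2.add h3
  rw [mul_zero, mul_zero, add_zero] at h4
  refine h4.congr' ?_
  filter_upwards [tlog.eventually_ge_atTop 1, self_mem_nhdsWithin] with e he he0
  have he0' : (0 : ℝ) < e := he0
  have h1ε : 0 < 1 - ε := by linarith
  have hL : 0 < Real.log (1 / e) := by linarith
  have h5 : Real.log (S / om B ε p e) = Real.log S - 1 / p * (Real.log (B / (1 - ε)) -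
      Real.log (Real.log (1 / e))) := by
    unfold om
    rw [Real.log_div hS.ne' (by positivity), Real.log_rpow (by positivity), ← div_div,
      Real.log_div (by positivity) hL.ne']
  unfold er
  rw [h5]
  ring

/-- the radial bound -/
noncomputable def rh (B ε p S e : ℝ) : ℝ := (1 + e) * (om B ε p e * Real.exp (er B ε p S e))

theorem tid : Tendsto (fun e : ℝ => 1 + e) (𝓝[>] 0) (𝓝 1) := by
  have h1 : Tendsto (fun e : ℝ => 1 + e) (𝓝 0) (𝓝 (1 + 0)) := by
    exact (continuous_const.add continuous_id).tendsto 0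
  rw [add_zero] at h1
  exact h1.mono_left nhdsWithin_le_nhds

theorem trh {B ε p S : ℝ} (hB : 0 < B) (hε0 : 0 < ε) (hε1 : ε < 1) (hp : 0 < p) (hS : 0 < S) :
    Tendsto (rh B ε p S) (𝓝[>] 0) (𝓝[>] 0) := by
  rw [tendsto_nhdsWithin_iff]
  constructor
  · have h1 := (Real.continuous_exp.tendsto 0).comp (ter hB hε0 hε1 hp hS)
    have h2 := tid.mul ((tom (B := B) hε1 hp).mul h1)
    rw [zero_mul, mul_zero] at h2
    exact h2
  · filter_upwards [tlog.eventually_ge_atTop 1, self_mem_nhdsWithin] with e he he0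
    have he0' : (0 : ℝ) < e := he0
    have h1ε : 0 < 1 - ε := by linarith
    have hL : 0 < Real.log (1 / e) := by linarith
    show 0 < rh B ε p S e
    unfold rh om
    positivity

theorem trhp {B ε p S : ℝ} (hB : 0 < B) (hε0 : 0 < ε) (hε1 : ε < 1) (hp : 0 < p) (hS : 0 < S) :
    Tendsto (fun e => rh B ε p S e ^ p * Real.log (1 / e)) (𝓝[>] 0) (𝓝 (B / (1 - ε))) := by
  have h1 := (Real.continuous_exp.tendsto 0).comp ((ter hB hε0 hε1 hp hS).const_mul p |>.trans
    (by rw [mul_zero]))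
  have h2 := tid.rpow_const (p := p) (Or.inr hp.le)
  have h3 := (h2.mul h1).mul_const (B / (1 - ε))
  rw [Real.one_rpow, Real.exp_zero, one_mul, one_mul] at h3
  refine h3.congr' ?_
  filter_upwards [tlog.eventually_ge_atTop 1, self_mem_nhdsWithin] with e he he0
  have he0' : (0 : ℝ) < e := he0
  have h1ε : 0 < 1 - ε := by linarith
  have hL : 0 < Real.log (1 / e) := by linarith
  have hb : 0 < B / ((1 - ε) * Real.log (1 / e)) := by positivity
  have h4 : om B ε p e ^ p = B / ((1 - ε) * Real.log (1 / e)) := by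
    unfold om
    rw [← Real.rpow_mul hb.le, one_div_mul_cancel hp.ne', Real.rpow_one]
  have ho : 0 ≤ om B ε p e := by
    unfold om
    positivity
  unfold rh
  rw [Real.mul_rpow (by positivity) (by positivity), Real.mul_rpow ho (Real.exp_pos _).le, h4,
    ← Real.exp_mul]
  show (1 + e) ^ p * Real.exp (p * er B ε p S e) * (B / (1 - ε)) = _
  rw [mul_comm (er B ε p S e) p]
  field_simp

theorem t_CIRC : S_CIRC := by
  intro d c₀ p A hd hp hA ψ F hψ hF hE hlim ζ hζ hFζ δ₀ η hδ₀ hη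
  by_contra hcon
  push Not at hcon
  obtain ⟨δ, hδ⟩ : ∃ δ, δ = min δ₀ (A / 2) := ⟨_, rfl⟩
  have hδ0 : 0 < δ := by rw [hδ]; exact lt_min hδ₀ (by positivity)
  have hδA : δ ≤ A / 2 := by rw [hδ]; exact min_le_right _ _
  have hδδ : δ ≤ δ₀ := by rw [hδ]; exact min_le_left _ _
  obtain ⟨B, hB⟩ : ∃ B, B = A - δ := ⟨_, rfl⟩
  have hB0 : 0 < B := by rw [hB]; linarith
  obtain ⟨ε, hε⟩ : ∃ ε, ε = δ / (4 * A) := ⟨_, rfl⟩
  have hε0 : 0 < ε := by rw [hε]; positivity
  have hεA : ε * A = δ / 4 := by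
    rw [hε]
    field_simp
  have hε1 : ε < 1 := by
    rw [hε, div_lt_one (by positivity)]
    linarith
  have h1ε : 0 < 1 - ε := by linarith
  have hBε : B / (1 - ε) < A - δ / 2 := by
    rw [div_lt_iff₀ h1ε, hB]
    nlinarith
  obtain ⟨H, hc, hdf, hH1, hH2⟩ := exists_H hd hψ hF hE hζ
  obtain ⟨S₀, hS₀⟩ := (isCompact_closedBall (0 : ℂ) 1).exists_bound_of_continuousOn hc
  obtain ⟨S, hS⟩ : ∃ S, S = max S₀ 1 := ⟨_, rfl⟩
  have hS1 : ∀ x : ℂ, ‖x‖ = 1 → ‖H x‖ ≤ S := by
    intro x hx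
    rw [hS]
    exact (hS₀ x (by rw [mem_closedBall_zero_iff, hx])).trans (le_max_left _ _)
  have hSge : 1 ≤ S := by rw [hS]; exact le_max_right _ _
  have hS0 : 0 < S := by linarith
  have hζ0 : ζ ≠ 0 := by
    rintro rfl
    rw [norm_zero] at hζ
    exact one_ne_zero hζ.symm
  have hξ : ‖ζ⁻¹‖ = 1 := by rw [norm_inv, hζ, inv_one]
  -- the eventual facts
  have e1 := tlog.eventually_ge_atTop 1
  have e2 := (trpow h1ε).eventually (gt_mem_nhds (show 0 < min η 1 by positivity))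
  have e3 := (tom (B := B) hε1 hp).eventually (gt_mem_nhds (show 0 < (1 : ℝ) by norm_num))
  have e4 := (trhp (S := S) hB0 hε0 hε1 hp hS0).eventually (gt_mem_nhds hBε)
  have e5 := ((hlim.comp (trh (S := S) hB0 hε0 hε1 hp hS0)).eventually
    (lt_mem_nhds (show A - δ / 2 < A by linarith)))
  have e6 := (trh (S := S) hB0 hε0 hε1 hp hS0).eventually self_mem_nhdsWithin
  have e7 : ∀ᶠ e : ℝ in 𝓝[>] 0, e ∈ Ioi (0 : ℝ) := self_mem_nhdsWithin
  obtain ⟨e, he1, he2, he3, he4, he5, he6, he7⟩ :=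
    (e1.and (e2.and (e3.and (e4.and (e5.and (e6.and e7)))))).exists
  have he0 : 0 < e := he7
  have hrh0 : 0 < rh B ε p S e := he6
  simp only [Function.comp_apply] at he5
  obtain ⟨t, ht⟩ : ∃ t, t = e ^ (1 - ε) := ⟨_, rfl⟩
  have ht0 : 0 < t := by rw [ht]; positivity
  rw [← ht] at he2
  have htη : t < η := he2.trans_le (min_le_left _ _)
  have ht1 : t < 1 := he2.trans_le (min_le_right _ _)
  have hlt : Real.log (1 / t) = (1 - ε) * Real.log (1 / e) := by
    rw [ht, one_div, one_div, Real.log_inv, Real.log_inv, Real.log_rpow he0]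
    ring
  have hL : 0 < Real.log (1 / e) := by linarith
  have hLt : 0 < Real.log (1 / t) := by rw [hlt]; positivity
  obtain ⟨ω, hω⟩ : ∃ ω, ω = om B ε p e := ⟨_, rfl⟩
  have hb : 0 < B / ((1 - ε) * Real.log (1 / e)) := by positivity
  have hω0 : 0 < ω := by
    rw [hω]
    unfold om
    positivity
  have hωp : ω ^ p = B / Real.log (1 / t) := by
    rw [hω, hlt]
    unfold om
    rw [← Real.rpow_mul hb.le, one_div_mul_cancel hp.ne', Real.rpow_one]
  have hωS : ω ≤ S := by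
    rw [hω]
    linarith
  have hnear : ∀ x : ℂ, ‖x‖ = 1 → ‖x - ζ⁻¹‖ ≤ t → ‖H x‖ ≤ ω := by
    intro x hx hxd
    rw [hH1 x hx]
    have hx0 : x ≠ 0 := by
      rintro rfl
      rw [norm_zero] at hx
      exact zero_ne_one hx
    have h2 : ‖x⁻¹ - ζ‖ = ‖x - ζ⁻¹‖ := by
      have e : x⁻¹ - ζ = -(x⁻¹ * ζ * (x - ζ⁻¹)) := by
        field_simp
        ring
      rw [e, norm_neg, norm_mul, norm_mul, norm_inv, hx, hζ, inv_one, one_mul, one_mul]
    rcases eq_or_ne x⁻¹ ζ with h3 | h3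
    · rw [h3, sub_self, norm_zero]
      exact hω0.le
    · have h4 : 0 < ‖x⁻¹ - ζ‖ := norm_pos_iff.2 (sub_ne_zero.2 h3)
      have h5 := hcon x⁻¹ (by rw [norm_inv, hx, inv_one]) h4 (by rw [h2]; linarith)
      have h6 : Real.log (1 / t) ≤ Real.log (1 / ‖x⁻¹ - ζ‖) := by
        apply Real.log_le_log (by positivity)
        exact one_div_le_one_div_of_le h4 (by rw [h2]; exact hxd)
      have h7 : ‖F x⁻¹ - F ζ‖ ^ p ≤ ω ^ p := by
        rw [hωp, le_div_iff₀ hLt, hFζ]
        have h8 : 0 ≤ ‖F x⁻¹ - c₀‖ ^ p := by positivity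
        have h9 := mul_le_mul_of_nonneg_left h6 h8
        rw [hB]
        linarith
      by_contra h8
      push Not at h8
      have h9 := Real.rpow_lt_rpow hω0.le h8 hp
      linarith
  have hr1 : (1 : ℝ) < 1 + e := by linarith
  have hr0 : (0 : ℝ) < 1 + e := by linarith
  have hrc : ((1 + e : ℝ) : ℂ) ≠ 0 := by exact_mod_cast hr0.ne'
  have hn : ‖((1 + e : ℝ) : ℂ) * ζ‖ = 1 + e := by
    rw [norm_mul, hζ, mul_one, Complex.norm_real, Real.norm_of_nonneg hr0.le]
  have hx₀ : ‖(((1 + e : ℝ) : ℂ) * ζ)⁻¹‖ < 1 := by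
    rw [norm_inv, hn]
    exact inv_lt_one_of_one_lt₀ hr1
  have hs : 1 - (((1 + e : ℝ) : ℂ) * ζ)⁻¹ * ζ⁻¹⁻¹ = ((e / (1 + e) : ℝ) : ℂ) := by
    rw [inv_inv]
    push_cast at hrc ⊢
    field_simp
    ring
  have h1 := two_const hc hdf hξ hω0 hωS ht0 hS1 hnear hx₀ (s := e / (1 + e)) (by positivity) hs
  have h2 : √(2 / t) * √(e / (1 + e)) ≤ √2 * e ^ (ε / 2) := by
    have h3 : √2 * e ^ (ε / 2) = √(2 * e ^ ε) := by
      rw [Real.sqrt_mul (by norm_num), Real.sqrt_eq_rpow (e ^ ε), ← Real.rpow_mul he0.le]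
      congr 2
      ring
    rw [h3, ← Real.sqrt_mul (by positivity)]
    apply Real.sqrt_le_sqrt
    have h4 : e ^ ε * t = e := by
      rw [ht, ← Real.rpow_add he0]
      norm_num
    have h5 : e / (1 + e) ≤ e := div_le_self he0.le hr1.le
    have h6 : 2 * e ^ ε = 2 / t * e := by
      rw [← h4]
      field_simp
      rw [h4]
    rw [h6]
    exact mul_le_mul_of_nonneg_left h5 (by positivity)
  have hL0 : 0 ≤ Real.log (S / ω) := Real.log_nonneg ((one_le_div hω0).2 hωS)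
  have h3 : ‖ψ (((1 + e : ℝ) : ℂ) * ζ) - c₀‖ ≤ rh B ε p S e := by
    rw [← hFζ, hH2 _ hr1]
    unfold rh er
    rw [← hω]
    apply mul_le_mul_of_nonneg_left _ hr0.le
    refine h1.trans ?_
    apply mul_le_mul_of_nonneg_left _ hω0.le
    exact Real.exp_le_exp.2 (mul_le_mul_of_nonneg_left h2 hL0)
  have hmem : e ∈ Dr ψ c₀ (rh B ε p S e) :=
    ⟨((1 + e : ℝ) : ℂ) * ζ, by rw [hn]; exact hr1, by rw [hn]; ring, h3⟩
  -- the supremum
  obtain ⟨M, hM⟩ : ∃ M, M = sSup (Dr ψ c₀ (rh B ε p S e)) := ⟨_, rfl⟩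
  rw [← hM] at he5
  have hrp : 0 < rh B ε p S e ^ p := by positivity
  have hM0 : 0 ≤ M := by
    rw [hM]
    apply Real.sSup_nonneg
    rintro h ⟨w, hw, rfl, -⟩
    linarith
  have hMne : M ≠ 0 := by
    intro h
    rw [h, div_zero, Real.log_zero, mul_zero] at he5
    linarith
  have hbdd : BddAbove (Dr ψ c₀ (rh B ε p S e)) := by
    by_contra h
    exact hMne (hM.trans (Real.sSup_of_not_bddAbove h))
  have heM : e ≤ M := by
    rw [hM]
    exact le_csSup hbdd hmem
  have hMpos : 0 < M := lt_of_le_of_ne hM0 (Ne.symm hMne)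
  have h4 : Real.log (1 / M) ≤ Real.log (1 / e) := by
    apply Real.log_le_log (by positivity)
    exact one_div_le_one_div_of_le he0 heM
  have h5 := mul_le_mul_of_nonneg_left h4 hrp.le
  linarith

end Pool.Agent.Y678.PC
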